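import Pool.Agent.V5helper35.AS.StmA

/-!
# Project AS, job CYC: an action in which `w` has a cycle of length exactly `N`
-/

set_option autoImplicit false

namespace Pool.Agent.V5helper65.AS

open Pool.Agent.R387.TC Pool.Agent.N77.CS Pool.Agent.V5helper35.AS

/-- a partial injection of a finite set extends to a permutation -/
theorem ext_perm {V : Type} [Finite V] (s : Set V) (f : V → V) (hf : Set.InjOn f s) :
    ∃ σ : Equiv.Perm V, ∀ v ∈ s, σ v = f v := by
  classical
  have := Fintype.ofFinite V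
  obtain ⟨g, hg⟩ := Set.MapsTo.exists_equiv_extend_of_card_eq (α := V) (β := V)
    (t := Finset.univ) (by simp) (s := s) (f := f) (by intro v _; simp) hf
  exact ⟨g.trans (Equiv.subtypeUnivEquiv (by simp)), fun v hv => hg v hv⟩

/-- the circle with labelled edges -/
theorem circle {n M : ℕ} [NeZero M] (ℓ : ZMod M → Fin n × Bool)
    (h : ∀ i, (ℓ i).1 = (ℓ (i + 1)).1 → (ℓ i).2 = (ℓ (i + 1)).2) :
    ∃ σ : Fin n → Equiv.Perm (ZMod M), ∀ i,
      (cond (ℓ i).2 (σ (ℓ i).1) (σ (ℓ i).1)⁻¹) (i + 1) = i := by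
  classical
  have key : ∀ a : Fin n, ∃ σ : Equiv.Perm (ZMod M),
      ∀ v ∈ {v : ZMod M | ℓ (v - 1) = (a, true) ∨ ℓ v = (a, false)},
        σ v = if ℓ (v - 1) = (a, true) then v - 1 else v + 1 := by
    intro a
    apply ext_perm
    intro v hv v' hv' hvv
    simp only at hvv
    by_cases h1 : ℓ (v - 1) = (a, true)
    · by_cases h2 : ℓ (v' - 1) = (a, true)
      · rw [if_pos h1, if_pos h2] at hvv
        exact sub_left_inj.1 hvv
      · exfalso
        rw [if_pos h1, if_neg h2] at hvv
        have h3 : ℓ v' = (a, false) := hv'.resolve_left h2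
        have h4 := h v'
        rw [← hvv, h1, h3] at h4
        exact absurd (h4 rfl) (by simp)
    · by_cases h2 : ℓ (v' - 1) = (a, true)
      · exfalso
        rw [if_neg h1, if_pos h2] at hvv
        have h3 : ℓ v = (a, false) := hv.resolve_left h1
        have h4 := h v
        rw [hvv, h2, h3] at h4
        exact absurd (h4 rfl) (by simp)
      · rw [if_neg h1, if_neg h2] at hvv
        exact add_left_injective _ hvv
  choose σ hσ using key
  refine ⟨σ, fun i => ?_⟩
  obtain ⟨a, b, hab⟩ : ∃ a b, ℓ i = (a, b) := ⟨_, _, rfl⟩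
  rw [hab]
  cases b with
  | true =>
    have h1 : ℓ (i + 1 - 1) = (a, true) := by rw [add_sub_cancel_right]; exact hab
    have h2 := hσ a (i + 1) (Or.inl h1)
    rw [if_pos h1, add_sub_cancel_right] at h2
    exact h2
  | false =>
    have h1 : ℓ (i - 1) ≠ (a, true) := by
      intro h3
      have h4 := h (i - 1)
      rw [sub_add_cancel, h3, hab] at h4
      exact absurd (h4 rfl) (by simp)
    have h2 := hσ a i (Or.inr hab)
    rw [if_neg h1] at h2
    change (σ a)⁻¹ (i + 1) = i
    rw [Equiv.Perm.inv_eq_iff_eq]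
    exact h2.symm

theorem t_CYC : S_CYC := by
  intro n w hw N hN
  classical
  -- the cyclically reduced word
  obtain ⟨L, hL⟩ : ∃ L, L = FreeGroup.reduceCyclically w.toWord := ⟨_, rfl⟩
  have hcr : FreeGroup.IsCyclicallyReduced L := by
    rw [hL]
    exact FreeGroup.reduceCyclically.isCyclicallyReduced FreeGroup.isReduced_toWord
  obtain ⟨u, hu⟩ : ∃ u : F n, w = u * FreeGroup.mk L * u⁻¹ := by
    refine ⟨FreeGroup.mk (FreeGroup.reduceCyclically.conjugator w.toWord), ?_⟩
    have h1 := FreeGroup.reduceCyclically.conj_conjugator_reduceCyclically w.toWord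
    rw [← hL] at h1
    rw [FreeGroup.inv_mk, FreeGroup.mul_mk, FreeGroup.mul_mk, h1, FreeGroup.mk_toWord]
  have hL0 : L ≠ [] := by
    intro h0
    apply hw
    rw [hu, h0]
    change u * 1 * u⁻¹ = 1
    group
  obtain ⟨L', hL'⟩ : ∃ L', L' = (List.replicate N L).flatten := ⟨_, rfl⟩
  have hcr' : FreeGroup.IsCyclicallyReduced L' := by
    rw [hL']
    exact hcr.flatten_replicate N
  have hr : 0 < L.length := List.length_pos_of_ne_nil hL0
  have hlen : ∀ j, ((List.replicate j L).flatten).length = j * L.length := by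
    intro j
    simp
  have hM : L'.length = N * L.length := by rw [hL', hlen]
  have hM0 : 0 < L'.length := by rw [hM]; exact Nat.mul_pos hN hr
  obtain ⟨M, hMM⟩ : ∃ M, M = L'.length := ⟨_, rfl⟩
  have : NeZero M := ⟨by omega⟩
  have hlt : ∀ i : ZMod M, i.val < L'.length := fun i => by
    have := ZMod.val_lt i
    omega
  obtain ⟨ℓ, hℓ⟩ : ∃ ℓ : ZMod M → Fin n × Bool, ∀ i, ℓ i = L'[i.val]'(hlt i) :=
    ⟨fun i => L'[i.val]'(hlt i), fun i => rfl⟩
  have hcond : ∀ i, (ℓ i).1 = (ℓ (i + 1)).1 → (ℓ i).2 = (ℓ (i + 1)).2 := by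
    intro i
    rw [hℓ, hℓ]
    by_cases hi : i.val + 1 < L'.length
    · have h1 : (i + 1).val = i.val + 1 := by
        have h0 : i + 1 = ((i.val + 1 : ℕ) : ZMod M) := by
          rw [Nat.cast_add, ZMod.natCast_zmod_val, Nat.cast_one]
        rw [h0, ZMod.val_cast_of_lt (by omega)]
      have h2 := List.isChain_iff_getElem.1 hcr'.1 i.val hi
      simp only [h1]
      exact h2
    · have h1 : i.val = L'.length - 1 := by
        have := hlt i
        omega
      have h2 : (i + 1).val = 0 := by
        have h3 : i + 1 = 0 := by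
          have h4 : ((i.val + 1 : ℕ) : ZMod M) = 0 := by
            rw [h1, Nat.sub_add_cancel hM0, ← hMM]
            exact ZMod.natCast_self M
          rw [Nat.cast_add, ZMod.natCast_zmod_val, Nat.cast_one] at h4
          exact h4
        rw [h3, ZMod.val_zero]
      have hne : L' ≠ [] := List.ne_nil_of_length_pos hM0
      have h3 := hcr'.2 (L'.getLast hne) (List.getLast?_eq_getLast_of_ne_nil hne ▸ rfl)
        (L'.head hne) (List.head?_eq_some_head hne ▸ rfl)
      rw [List.getLast_eq_getElem, List.head_eq_getElem] at h3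
      simp only [h1, h2]
      exact h3
  obtain ⟨σ, hσ⟩ := circle ℓ hcond
  obtain ⟨ρ, hρ⟩ : ∃ ρ : F n →* Equiv.Perm (ZMod M), ρ = FreeGroup.lift σ := ⟨_, rfl⟩
  -- the path
  have hpath : ∀ A B : List (Fin n × Bool), L' = A ++ B →
      ρ (FreeGroup.mk A) ((A.length : ℕ) : ZMod M) = 0 := by
    intro A
    induction A using List.reverseRecOn with
    | nil =>
      intro B _
      have h1 : (FreeGroup.mk [] : F n) = 1 := rfl
      rw [h1, map_one]
      simp
    | append_singleton A x ih =>
      intro B hB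
      have h1 := ih ([x] ++ B) (by rw [hB, List.append_assoc])
      have h2 : A.length < M := by
        rw [hMM, hB]
        simp
      have h3 : ℓ ((A.length : ℕ) : ZMod M) = x := by
        rw [hℓ]
        have h4 : (((A.length : ℕ) : ZMod M)).val = A.length := ZMod.val_cast_of_lt h2
        simp only [h4, hB]
        simp
      have h5 := hσ ((A.length : ℕ) : ZMod M)
      rw [h3] at h5
      have h6 : ρ (FreeGroup.mk [x]) = cond x.2 (σ x.1) (σ x.1)⁻¹ := by
        rw [hρ, FreeGroup.lift_mk]
        simp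
      rw [← FreeGroup.mul_mk, map_mul, Equiv.Perm.mul_apply, h6, List.length_append,
        List.length_singleton, Nat.cast_add, Nat.cast_one, h5, h1]
  have hpow : ∀ j, FreeGroup.mk (List.replicate j L).flatten = (FreeGroup.mk L : F n) ^ j := by
    intro j
    induction j with
    | zero => rfl
    | succ j ih =>
      rw [List.replicate_succ, List.flatten_cons, ← FreeGroup.mul_mk, ih, pow_succ']
  have hj : ∀ j, j ≤ N → ((ρ (FreeGroup.mk L)) ^ j) ((j * L.length : ℕ) : ZMod M) = 0 := by
    intro j hjN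
    have h1 := hpath (List.replicate j L).flatten (List.replicate (N - j) L).flatten (by
      rw [hL', ← List.flatten_append, ← List.replicate_add, Nat.add_sub_cancel' hjN])
    rw [hpow, map_pow, hlen] at h1
    exact h1
  have h9 : (ρ u)⁻¹ (ρ u 0) = 0 := (ρ u).symm_apply_apply 0
  refine ⟨ZMod M, inferInstance, ρ, ρ u 0, ?_, ?_⟩
  · have h1 := hj N le_rfl
    rw [← hM, ← hMM, ZMod.natCast_self] at h1
    have h2 : ρ w ^ N = ρ u * ρ (FreeGroup.mk L) ^ N * (ρ u)⁻¹ := by
      rw [hu, map_mul, map_mul, map_inv, conj_pow]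
    rw [h2, Equiv.Perm.mul_apply, Equiv.Perm.mul_apply, h9, h1]
  · intro j hj0 hjN h3
    have h2 : ρ w ^ j = ρ u * ρ (FreeGroup.mk L) ^ j * (ρ u)⁻¹ := by
      rw [hu, map_mul, map_mul, map_inv, conj_pow]
    rw [h2, Equiv.Perm.mul_apply, Equiv.Perm.mul_apply, h9] at h3
    have h4 := (ρ u).injective h3
    have h5 := hj j hjN.le
    have h6 : ((j * L.length : ℕ) : ZMod M) = 0 := by
      apply (ρ (FreeGroup.mk L) ^ j).injective
      rw [h5, h4]
    rw [ZMod.natCast_eq_zero_iff] at h6
    have h7 := Nat.le_of_dvd (Nat.mul_pos hj0 hr) h6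
    rw [hMM, hM] at h7
    have h8 : j * L.length < N * L.length := Nat.mul_lt_mul_of_pos_right hjN hr
    omega

end Pool.Agent.V5helper65.AS
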