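import Pool.Agent.V5helper35.AS.StmA

/-!
# Project AS, job GAD: `F_k * F_l` induces the full profinite topology on `⟨w⟩ * F_l`
-/

set_option autoImplicit false

namespace Pool.Agent.V5helper65.AS

open Pool.Agent.R387.TC Pool.Agent.N77.CS Pool.Agent.V5helper35.AS

section per

variable {Z : Type} {π : Equiv.Perm Z} {z : Z} {N : ℕ}

theorem per_of (h1 : (π ^ N) z = z) {i : ℤ} (hi : (N : ℤ) ∣ i) : (π ^ i) z = z := by
  obtain ⟨m, rfl⟩ := hi
  rw [zpow_mul, zpow_natCast]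
  exact Equiv.Perm.zpow_apply_eq_self_of_apply_eq_self h1 m

theorem per_to (hN : 1 ≤ N) (h1 : (π ^ N) z = z) (h2 : ∀ j : ℕ, 0 < j → j < N → (π ^ j) z ≠ z)
    {i : ℤ} (hi : (π ^ i) z = z) : (N : ℤ) ∣ i := by
  have hN' : (0 : ℤ) < N := by exact_mod_cast hN
  have h3 : i = i % N + N * (i / N) := (Int.emod_add_mul_ediv i N).symm
  have h4 : (π ^ (i % N)) z = z := by
    have h5 : (π ^ i) z = (π ^ (i % N)) ((π ^ (N * (i / N) : ℤ)) z) := by
      rw [← Equiv.Perm.mul_apply, ← zpow_add, ← h3]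
    rw [per_of h1 (Dvd.intro _ rfl), hi] at h5
    exact h5.symm
  obtain ⟨r, hr⟩ : ∃ r : ℕ, (r : ℤ) = i % N :=
    ⟨(i % N).toNat, Int.toNat_of_nonneg (Int.emod_nonneg _ hN'.ne')⟩
  have h6 : r < N := by
    have := Int.emod_lt_of_pos i hN'
    omega
  rw [← hr, zpow_natCast] at h4
  rcases Nat.eq_zero_or_pos r with h0 | h0
  · apply Int.dvd_of_emod_eq_zero
    rw [← hr, h0]
    rfl
  · exact absurd h4 (h2 r h0 h6)

theorem per_eq (h1 : (π ^ N) z = z) {i j : ℤ} (hi : (N : ℤ) ∣ i - j) :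
    (π ^ i) z = (π ^ j) z := by
  have h2 := per_of h1 hi
  have h3 : (π ^ i) z = (π ^ j) ((π ^ (i - j)) z) := by
    rw [← Equiv.Perm.mul_apply, ← zpow_add]
    congr 2
    ring
  rw [h3, h2]

theorem per_eq' (hN : 1 ≤ N) (h1 : (π ^ N) z = z) (h2 : ∀ j : ℕ, 0 < j → j < N → (π ^ j) z ≠ z)
    {i j : ℤ} (hi : (π ^ i) z = (π ^ j) z) : (N : ℤ) ∣ i - j := by
  apply per_to hN h1 h2
  have h3 : (π ^ (i - j)) z = (π ^ (-j)) ((π ^ i) z) := by
    rw [← Equiv.Perm.mul_apply, ← zpow_add]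
    congr 2
    ring
  rw [h3, hi, ← Equiv.Perm.mul_apply, ← zpow_add, neg_add_cancel, zpow_zero]
  rfl

end per

theorem pow_eq' {Q : Type} [Group Q] (t : Q) {i j : ℤ} :
    (orderOf t : ℤ) ∣ i - j ↔ t ^ i = t ^ j := by
  rw [orderOf_dvd_iff_zpow_eq_one, zpow_sub, mul_inv_eq_one]

/-- `F_k` acts on the first factor -/
def actA {k : ℕ} {Z : Type} (Q : Type) (ρ : F k →* Equiv.Perm Z) : F k →* Equiv.Perm (Z × Q) where
  toFun x := Equiv.prodCongr (ρ x) (Equiv.refl Q)
  map_one' := by ext a <;> simp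
  map_mul' x y := by ext a <;> simp

theorem actA_apply {k : ℕ} {Z : Type} (Q : Type) (ρ : F k →* Equiv.Perm Z) (x : F k) (a : Z × Q) :
    actA Q ρ x a = (ρ x a.1, a.2) := rfl

theorem t_GAD (hCYC : S_CYC) : S_GAD := by
  intro k l w hw KB hKB hfi
  classical
  have hQf : Finite (F (l + 1) ⧸ KB) := inferInstance
  obtain ⟨t, ht⟩ : ∃ t : F (l + 1) ⧸ KB, t = (QuotientGroup.mk' KB) (tt l) := ⟨_, rfl⟩
  have hN : 1 ≤ orderOf t := orderOf_pos t
  obtain ⟨Z, hZ, ρ, z, hz1, hz2⟩ := hCYC k w hw (orderOf t) hN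
  -- representatives
  obtain ⟨s, hs⟩ : ∃ s : (F (l + 1) ⧸ KB) → (F (l + 1) ⧸ KB), s = fun q =>
      Quotient.out (Quotient.mk (QuotientGroup.rightRel (Subgroup.zpowers t)) q) := ⟨_, rfl⟩
  have hs1 : ∀ q, s (t * q) = s q := by
    intro q
    have h1 : Quotient.mk (QuotientGroup.rightRel (Subgroup.zpowers t)) (t * q) =
        Quotient.mk (QuotientGroup.rightRel (Subgroup.zpowers t)) q := by
      apply Quotient.sound
      change (QuotientGroup.rightRel (Subgroup.zpowers t)) (t * q) q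
      rw [QuotientGroup.rightRel_apply]
      refine ⟨-1, ?_⟩
      change t ^ (-1 : ℤ) = _
      group
    simp only [hs, h1]
  have hs2 : ∀ q, ∃ j : ℤ, q = t ^ j * s q := by
    intro q
    have h1 : Quotient.mk (QuotientGroup.rightRel (Subgroup.zpowers t)) (s q) =
        Quotient.mk (QuotientGroup.rightRel (Subgroup.zpowers t)) q := by
      simp only [hs]
      exact Quotient.out_eq _
    have h2 : (QuotientGroup.rightRel (Subgroup.zpowers t)) (s q) q := Quotient.exact h1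
    rw [QuotientGroup.rightRel_apply] at h2
    obtain ⟨j, hj⟩ := h2
    refine ⟨j, ?_⟩
    change t ^ j = _ at hj
    rw [hj]
    group
  choose j hj using hs2
  have hjt : ∀ q, (orderOf t : ℤ) ∣ j (t * q) - (j q + 1) := by
    intro q
    rw [pow_eq']
    have h1 := hj (t * q)
    rw [hs1] at h1
    have h2 : t * q = t ^ (j q + 1) * s q := by
      conv_lhs => rw [hj q]
      rw [add_comm (j q) 1, zpow_add, zpow_one, mul_assoc]
    rw [h2] at h1
    have h3 := mul_right_cancel h1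
    rw [← h2] at h3
    exact h3.symm
  -- the embedding
  obtain ⟨ι, hι⟩ : ∃ ι : (F (l + 1) ⧸ KB) ↪ Z × (F (l + 1) ⧸ KB),
      ∀ q, ι q = ((ρ w ^ j q) z, s q) := by
    refine ⟨⟨fun q => ((ρ w ^ j q) z, s q), ?_⟩, fun q => rfl⟩
    intro q q' h
    have h1 : (ρ w ^ j q) z = (ρ w ^ j q') z := congrArg Prod.fst h
    have h2 : s q = s q' := congrArg Prod.snd h
    have h3 := per_eq' hN hz1 hz2 h1
    rw [pow_eq'] at h3
    rw [hj q, hj q', h3, h2]
  have hιt : ∀ q, ι (t * q) = (ρ w (ι q).1, (ι q).2) := by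
    intro q
    rw [hι, hι, hs1]
    have h1 := per_eq hz1 (hjt q)
    rw [h1, add_comm (j q) 1, zpow_add, zpow_one]
    rfl
  -- the action
  obtain ⟨g, hg⟩ : ∃ g : F l →* Equiv.Perm (Z × (F (l + 1) ⧸ KB)), ∀ y q,
      g y (ι q) = ι ((QuotientGroup.mk' KB) (inc l y) * q) := by
    refine ⟨(Equiv.Perm.viaEmbeddingHom ι).comp ((MulAction.toPermHom (F (l + 1) ⧸ KB)
      (F (l + 1) ⧸ KB)).comp ((QuotientGroup.mk' KB).comp (inc l))), ?_⟩
    intro y q
    exact Equiv.Perm.viaEmbedding_apply _ _ _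
  obtain ⟨Φ, hΦ⟩ : ∃ Φ, Φ = ASM.hAB (actA (F (l + 1) ⧸ KB) ρ) g := ⟨_, rfl⟩
  have key : ∀ x : F (l + 1), ∀ q, Φ (ew l w x) (ι q) = ι ((QuotientGroup.mk' KB) x * q) := by
    intro x
    induction x using FreeGroup.induction_on with
    | C1 =>
      intro q
      rw [map_one, map_one, map_one, one_mul]
      rfl
    | of i =>
      intro q
      induction i using Fin.lastCases with
      | last =>
        have h1 : ew l w (FreeGroup.of (Fin.last l)) = iA k l w := homExt_tt _ _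
        rw [h1, hΦ, ASM.hAB_A, actA_apply, ← hιt, ht]
        rfl
      | cast i =>
        have h1 : inc l (FreeGroup.of i) = FreeGroup.of i.castSucc := by simp [inc]
        rw [← h1]
        have h2 : ew l w (inc l (FreeGroup.of i)) = iB k l (FreeGroup.of i) := homExt_inc _ _ _
        rw [h2, hΦ, ASM.hAB_B, hg]
    | inv_of i ih =>
      intro q
      have h1 := ih ((QuotientGroup.mk' KB) (FreeGroup.of i)⁻¹ * q)
      rw [← mul_assoc, ← map_mul, mul_inv_cancel, map_one, one_mul] at h1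
      rw [map_inv (ew l w), map_inv Φ, Equiv.Perm.inv_eq_iff_eq]
      exact h1.symm
    | mul x y hx hy =>
      intro q
      rw [map_mul (ew l w), map_mul Φ, Equiv.Perm.mul_apply, hy, hx, map_mul (QuotientGroup.mk' KB), mul_assoc]
  refine ⟨core (k + l) (Equiv.Perm (Z × (F (l + 1) ⧸ KB))), core_char _ _, ?_, ?_⟩
  · exact core_fin _ _
  · intro x hx
    rw [mem_core] at hx
    have h1 := key x 1
    rw [hx Φ, mul_one] at h1
    have h2 : (1 : F (l + 1) ⧸ KB) = (QuotientGroup.mk' KB) x := ι.injective h1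
    exact (QuotientGroup.eq_one_iff x).1 h2.symm

end Pool.Agent.V5helper65.AS
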